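import Pool.Agent.H69.GB.HYA
import Pool.Agent.H34.GZZ.ZEU
import Pool.Agent.H34.GZZ.GBZ

/-!
# MP_52e316_nt, row HYZ of gzz_modules: one value on the critical line against short sums, sharp at
infinity, without weight and without condition at infinity
-/

set_option autoImplicit false

namespace Pool.Agent.H88.GZZ

open MeasureTheory Pool.Agent.H34.GM Pool.Agent.H34.GZ Pool.Agent.H34.GU Pool.Agent.H34.GA
open Pool.Agent.H23.GB Pool.Agent.H69.GA Pool.Agent.H69.GB Pool.Agent.H34.GHY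
open Pool.Agent.H34.GZZ Pool.Agent.H68.GHY

/-- the last step -/
theorem hyz_fin {x p Q ρ cl CA E CZ CU I I' D0 Zs : ℝ} (hx : 0 ≤ x) (hQ : 1 ≤ Q)
    (hρ : 0 < ρ) (hcl : 0 < cl) (hCA : 0 < CA) (hE : 0 ≤ E) (hCZ : 0 ≤ CZ) (hCU : 0 ≤ CU)
    (hI : 0 ≤ I) (hI' : I' ≤ 16 * I) (hD : D0 ≤ ρ) (hZ : cl * ρ * (p * Q) ≤ Zs)
    (hA : x * Zs ≤ CA * E * (CZ * D0 + (CU * ρ * Q) * I')) :
    x * p ≤ cl⁻¹ * CA * E * ((CZ + 16 * CU) * (1 + I)) := by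
  have hQ0 : 0 < Q := by linarith
  have h1 : x * (cl * ρ * (p * Q)) ≤ CA * E * (((CZ + 16 * CU) * (1 + I)) * (ρ * Q)) := by
    refine (mul_le_mul_of_nonneg_left hZ hx).trans (hA.trans ?_)
    refine mul_le_mul_of_nonneg_left ?_ (by positivity)
    have hρQ : ρ ≤ ρ * Q := le_mul_of_one_le_right hρ.le hQ
    have a1 : CZ * D0 ≤ CZ * (ρ * Q) := mul_le_mul_of_nonneg_left (hD.trans hρQ) hCZ
    have a2 : (CU * ρ * Q) * I' ≤ (CU * ρ * Q) * (16 * I) :=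
      mul_le_mul_of_nonneg_left hI' (by positivity)
    have a3 : 0 ≤ ρ * Q := by positivity
    nlinarith [mul_nonneg (mul_nonneg hCZ hI) a3, mul_nonneg hCU a3]
  have h2 : 0 < cl * (ρ * Q) := by positivity
  have h3 : (x * p) * (cl * (ρ * Q)) ≤
      (cl⁻¹ * CA * E * ((CZ + 16 * CU) * (1 + I))) * (cl * (ρ * Q)) := by
    calc (x * p) * (cl * (ρ * Q)) = x * (cl * ρ * (p * Q)) := by ring
      _ ≤ _ := h1
      _ = _ := by field_simp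
  exact le_of_mul_le_mul_right h3 h2

/-- change of the centre of the kernel -/
theorem ker_shift (g : ℝ → ℝ) (hg : Continuous g) (hg0 : ∀ u, 0 ≤ g u) (B : ℝ)
    (hB : ∀ u, |g u| ≤ B) (t t' : ℝ) (h : |t' - t| ≤ 1) :
    ∫ τ : ℝ, ((1 + |τ|) ^ 4)⁻¹ * g (t' + τ) ≤ 16 * ∫ τ : ℝ, ((1 + |τ|) ^ 4)⁻¹ * g (t + τ) := by
  have hkc : Continuous fun τ : ℝ => ((1 + |τ|) ^ 4)⁻¹ :=
    Continuous.inv₀ (by fun_prop) fun τ => by positivity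
  have h1 : ∫ τ : ℝ, ((1 + |τ|) ^ 4)⁻¹ * g (t' + τ) =
      ∫ τ : ℝ, ((1 + |τ + (t - t')|) ^ 4)⁻¹ * g (t + τ) := by
    rw [← integral_add_right_eq_self (fun τ => ((1 + |τ|) ^ 4)⁻¹ * g (t' + τ)) (t - t')]
    refine integral_congr_ae (Filter.Eventually.of_forall fun τ => ?_)
    show ((1 + |τ + (t - t')|) ^ 4)⁻¹ * g (t' + (τ + (t - t'))) = _
    rw [show t' + (τ + (t - t')) = t + τ by ring]
  rw [h1, ← integral_const_mul]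
  refine integral_mono_of_nonneg
    (Filter.Eventually.of_forall fun τ => mul_nonneg (by positivity) (hg0 _)) ?_
    (Filter.Eventually.of_forall fun τ => ?_)
  · exact (krn_int4 hkc (fun τ => by positivity) (C := 1) (fun τ => by rw [one_mul]) g hg B hB
      t).const_mul 16
  · show ((1 + |τ + (t - t')|) ^ 4)⁻¹ * g (t + τ) ≤ 16 * (((1 + |τ|) ^ 4)⁻¹ * g (t + τ))
    rw [← mul_assoc]
    refine mul_le_mul_of_nonneg_right ?_ (hg0 _)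
    have h2 : 1 + |τ| ≤ 2 * (1 + |τ + (t - t')|) := by
      have h3 := abs_sub (τ + (t - t')) (t - t')
      rw [add_sub_cancel_right, abs_sub_comm t t'] at h3
      have h4 := abs_nonneg (τ + (t - t'))
      linarith
    have h3 : (1 + |τ|) ^ 4 ≤ 16 * (1 + |τ + (t - t')|) ^ 4 := by
      calc (1 + |τ|) ^ 4 ≤ (2 * (1 + |τ + (t - t')|)) ^ 4 :=
            pow_le_pow_left₀ (by positivity) h2 4
        _ = _ := by ring
    rw [← div_eq_mul_inv, le_div_iff₀ (by positivity), inv_mul_le_iff₀ (by positivity), mul_comm]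
    exact h3

theorem pf_HYZ (hPRF : T_PRF) (hTAY : Pool.Agent.H34.GZZ.T_TAY) (hAFZ : T_AFZ)
    (hCIZ : T_CIZ) (hMED : T_MED)
    (hCNR : T_CNR) (hCFA : T_CFA) (hCFB : Pool.Agent.H34.GA.T_CFB) (hFR : T_FR1)
    (hFEC : T_FEC) (hSMA : Pool.Agent.H34.GA.T_SMA) (hENA : T_ENA) (hZPE : T_ZPE)
    (hZPB : T_ZPB) (hLMB : Pool.Agent.H23.GB.T_LMB) (hMLZ : T_MLZ) (hPHB : T_PHB) : T_HYZ := by
  obtain ⟨χ, hχ⟩ := hPRF
  intro m hm ε0 hε0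
  have hmR : (1 : ℝ) ≤ m := by exact_mod_cast hm
  obtain ⟨ε, hε, hε1, hεm, hεε⟩ : ∃ ε : ℝ, 0 < ε ∧ ε ≤ 1 ∧ (m + 3) * ε ≤ ε0 ∧ ε ≤ ε0 := by
    have h0 : 0 < (m : ℝ) + 3 := by positivity
    refine ⟨min 1 (ε0 / (m + 3)), lt_min one_pos (by positivity), min_le_left _ _, ?_, ?_⟩
    · calc ((m : ℝ) + 3) * min 1 (ε0 / (m + 3)) ≤ (m + 3) * (ε0 / (m + 3)) :=
            mul_le_mul_of_nonneg_left (min_le_right _ _) h0.le
        _ = ε0 := by field_simp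
    · refine (min_le_right _ _).trans (div_le_self hε0.le (by linarith))
  obtain ⟨B, hB, hLam⟩ := hLMB m hm
  obtain ⟨r0, hr0, hZ0⟩ := hZPB m χ 0 hm hχ
  obtain ⟨CN, hCN, hNR⟩ := hCNR m hm
  obtain ⟨ct, c2t, CT, hct, hc2t, hCT, hTay⟩ := hTAY m χ hm hχ CN hCN
  obtain ⟨n0, cl, CU, hcl, hCU, hZeu⟩ := pf_ZEU (max CT r0) c2t hc2t
  obtain ⟨K, CA, hCA, hA⟩ := hAFZ m n0 n0 hm r0 B ε hr0 hB hε hε1
  obtain ⟨CZ, hCZ, hZ⟩ := hZPB m χ K hm hχ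
  obtain ⟨CI, hCI, hI⟩ := hCIZ n0 ε hε
  obtain ⟨CP, cP, AP, hCP, hcP, hP⟩ := hPHB χ hχ m hm 1 0 one_pos
  have hCN0 : 0 < CN := by linarith
  have hCZ0 : 0 < CZ := by linarith
  obtain ⟨c, hc, hc2, hcl1⟩ : ∃ c : ℝ, 0 < c ∧ c ≤ 1 / 32 ∧ 4 * c ≤ ct := by
    refine ⟨min (1 / 32) (ct / 4), lt_min (by norm_num) (by positivity), min_le_left _ _, ?_⟩
    have := min_le_right (1 / 32) (ct / 4)
    linarith
  obtain ⟨C1, hC1⟩ : ∃ C1 : ℝ, C1 = CA * ((c⁻¹ ^ m) ^ (1 / 2 : ℝ) * c ^ (-ε0)) := ⟨_, rfl⟩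
  obtain ⟨C2, hC2⟩ : ∃ C2 : ℝ, C2 = CI * (cl⁻¹ * CA * (CZ + 16 * CU) * c ^ (-ε0)) := ⟨_, rfl⟩
  have hC1p : 0 < C1 := by
    rw [hC1]
    positivity
  have hC2p : 0 < C2 := by
    rw [hC2]
    positivity
  refine ⟨C1 + C2, by positivity, ?_⟩
  intro N _ T D hS F lam P hF hn hLip hP1 L hLL t ht X hX
  have hNZ : NZ F := spx_nz hS (by rw [hn]; exact one_ne_zero)
  have hP0 : 0 < P := by linarith
  have hN1 : (1 : ℝ) ≤ N := by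
    have := hS.two_le
    exact_mod_cast (by omega : 1 ≤ N)
  have hN0 : (0 : ℝ) < N := by linarith
  obtain ⟨H, xv, hFr⟩ := hFR m N hm hS.two_le
  have hc1 : Cof m (c1 D F) 1 := by
    have h1 := hCFA m N T D hS F lam hF.toHecA
    rw [hn] at h1
    exact h1
  have hc2' : Cof m (c2 D H xv F) 1 := by
    have h1 := hCFB m N T D hS H xv hFr F lam hF.toHecA
    rw [hn] at h1
    exact h1
  have hlam := hLam N T D hS F lam hF.toHecA hNZ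
  obtain ⟨δ, hδd⟩ : ∃ δ : ℝ, δ = c / P := ⟨_, rfl⟩
  have hδ0 : 0 < δ := by
    rw [hδd]
    positivity
  have hδP : δ * P = c := by
    rw [hδd]
    field_simp
  have hδc : δ ≤ c := by
    rw [hδd]
    exact div_le_self hc.le hP1
  have hδ2 : δ ≤ 1 / 2 := by linarith
  have hδ1 : δ ≤ 1 := by linarith
  obtain ⟨hΦ, hΦ0, hΦW, -⟩ := hP δ hδ0 hδ2
  have hZ1 := hZ0 δ hδ0 hδ2 (c1 D F) hc1
  have hZ2 := hZ δ hδ0 hδ2 (c2 D H xv F) hc2'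
  have hZK : ∀ K : ℕ, ∃ C : ℝ, ∀ r : ℝ, 0 < r →
      ‖uu (Pool.Agent.H34.GA.cf (dD^[m] (bi m χ δ))) (c2 D H xv F) r‖ ≤ C * min 1 (r ^ K) := by
    intro K'
    obtain ⟨CK, hCK, hK⟩ := hZPB m χ K' hm hχ
    refine ⟨CK * δ⁻¹ ^ K', fun r hr => ?_⟩
    exact hya_min (by linarith) hr hδ0 (by linarith) ((hK δ hδ0 hδ2 _ hc2').1 r hr)
  have hs0 : ‖(1 / 2 + t * Complex.I : ℂ)‖ ≤ 1 / 2 + |t| := by
    refine (norm_add_le _ _).trans (le_of_eq ?_)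
    rw [norm_mul, Complex.norm_I, mul_one, Complex.norm_real, Real.norm_eq_abs]
    norm_num
  have hδt : δ * (1 + P + ‖(1 / 2 + t * Complex.I : ℂ)‖) ≤ ct := by
    have h1 : 1 + P + ‖(1 / 2 + t * Complex.I : ℂ)‖ ≤ 4 * P := by linarith
    calc δ * (1 + P + ‖(1 / 2 + t * Complex.I : ℂ)‖) ≤ δ * (4 * P) :=
          mul_le_mul_of_nonneg_left h1 hδ0.le
      _ = 4 * (δ * P) := by ring
      _ = 4 * c := by rw [hδP]
      _ ≤ ct := hcl1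
  have hT := hTay (c1 D F) P (1 / 2 + t * Complex.I) δ hc1.meas hc1.bd hP0.le
    (fun w hw => hNR N T D hS F lam hF.toHecA hn P hLip hP0.le w hw) hδ0 hδt
  obtain ⟨Φ, hΦd⟩ : ∃ Φ : Mat m → ℂ, Φ = dD^[m] (bi m χ δ) := ⟨_, rfl⟩
  rw [← hΦd] at hΦ hΦ0 hΦW hZ1 hZ2 hZK hT
  have hZ4 : ∀ r : ℝ, 0 < r → uu Φ (c1 D F) r ≠ 0 → r0⁻¹ ≤ r ∧ r ≤ r0 := hZ1.2.2
  have hAd : Adm F (Pool.Agent.H34.GA.cf Φ) := Or.inr hΦ0
  have hWc := hSMA m N T D hS F lam hF hNZ Φ hΦ hAd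
  obtain ⟨L', hL', hLW'⟩ := hENA m N T D hS F lam hF hNZ
  have hLe : L = L' := isl_uniq hLL hL'
  have hLW : ∀ s : ℂ, LmA m (uu Φ (c1 D F)) lam s = L s * MelA m (uu Φ (c1 D F)) s := by
    rw [hLe]
    exact hLW' _ hWc
  have hne : ∃ s : ℂ, L s ≠ 0 := isl_ne hLL (lam_one hS hF.toHecA hNZ)
  have hFE := hFEC m N T D hS H xv hFr F lam hF hNZ Φ hΦ hAd
  obtain ⟨-, hcψ, hMel⟩ := hMLZ m hm (c1 D F) 1 hc1 Φ hΦ.toTg
  have hcψ' : ContinuousOn (uu (Pool.Agent.H34.GA.cf Φ) (c2 D H xv F)) (Set.Ioi 0) :=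
    (hΦW _ hc2').2.diff.continuousOn
  have hMd := hMED m r0 (uu Φ (c1 D F)) hm hr0 hcψ hZ4
  have hMelf : MelA m (uu Φ (c1 D F)) = ZA Φ (c1 D F) := funext hMel
  have hZd : Differentiable ℂ (ZA Φ (c1 D F)) := by
    rw [← hMelf]
    exact hMd
  have hR32 : (32 : ℝ) ≤ δ⁻¹ := by
    rw [le_inv_comm₀ (by norm_num) hδ0]
    linarith
  obtain ⟨s1, hs1, hs1'⟩ := hT.2
  obtain ⟨n, z, hn0, hzz⟩ := hZeu (ZA Φ (c1 D F)) t δ⁻¹ hZd hR32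
    (fun s hs => (hT.1 s hs).trans (le_max_left _ _))
    (fun u => (hZ1.2.1 u).trans (le_max_right _ _)) ⟨s1, hs1, hs1'⟩
  have hρ : (δ⁻¹ ^ n)⁻¹ = δ ^ n := by rw [inv_pow, inv_inv]
  rw [hρ] at hzz
  have hρ0 : 0 < δ ^ n := pow_pos hδ0 n
  have hdN : (δ / N) ^ n0 ≤ δ ^ n := by
    calc (δ / N) ^ n0 ≤ δ ^ n0 := pow_le_pow_left₀ (by positivity) (div_le_self hδ0.le hN1) _
      _ ≤ δ ^ n := pow_le_pow_of_le_one hδ0.le hδ1 hn0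
  have hNδ1 : 1 ≤ (N : ℝ) / δ := by
    rw [one_le_div hδ0]
    linarith
  have hEε : ((N : ℝ) / δ) ^ ε ≤ ((N : ℝ) / δ) ^ ε0 := Real.rpow_le_rpow_of_exponent_le hNδ1 hεε
  have hX' : CA * ((N : ℝ) * δ⁻¹ ^ m) ^ (1 / 2 : ℝ) * ((N : ℝ) / δ) ^ ε ≤ X := by
    refine le_trans (mul_le_mul_of_nonneg_left hEε (by positivity)) (le_trans ?_ hX)
    rw [hδd, hya_pow hN0 hP0 hc, hya_pow2 m hN0 hP0 hc]
    have h7 : CA * ((c⁻¹ ^ m) ^ (1 / 2 : ℝ) * ((N : ℝ) * P ^ m) ^ (1 / 2 : ℝ)) *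
        (c ^ (-ε0) * ((N : ℝ) * P) ^ ε0) =
        C1 * ((N : ℝ) * P ^ m) ^ (1 / 2 : ℝ) * ((N : ℝ) * P) ^ ε0 := by
      rw [hC1]
      ring
    rw [h7]
    refine mul_le_mul_of_nonneg_right (mul_le_mul_of_nonneg_right ?_ ?_) ?_
    · linarith
    · positivity
    · positivity
  obtain ⟨g, hg⟩ : ∃ g : ℝ → ℝ, g =
      fun u : ℝ => ‖SX lam X (1 / 2 + (u : ℂ) * Complex.I)‖ := ⟨_, rfl⟩
  have hgc : Continuous g := by
    have h1 : g = fun u => ‖SD lam X u‖ := by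
      rw [hg]
      funext u
      rw [sx_sd]
    rw [h1]
    exact (sd_cont lam X).norm
  have hg0 : ∀ u, 0 ≤ g u := fun u => by rw [hg]; exact norm_nonneg _
  obtain ⟨Bg, hBg⟩ : ∃ Bg : ℝ, ∀ u, |g u| ≤ Bg := by
    obtain ⟨Bb, hBb⟩ := sd_bdd lam X
    refine ⟨Bb, fun u => ?_⟩
    rw [abs_of_nonneg (hg0 u), hg]
    show ‖SX lam X (1 / 2 + (u : ℂ) * Complex.I)‖ ≤ Bb
    rw [sx_sd]
    exact hBb u
  obtain ⟨I, hId⟩ : ∃ I : ℝ, I = ∫ τ : ℝ, ((1 + |τ|) ^ 4)⁻¹ * g (t + τ) := ⟨_, rfl⟩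
  have hI0 : 0 ≤ I := by
    rw [hId]
    exact integral_nonneg fun τ => mul_nonneg (by positivity) (hg0 _)
  have hIg : ∫ τ : ℝ, ((1 + |τ|) ^ 4)⁻¹ *
      ‖SX lam X (1 / 2 + ((t + τ : ℝ) : ℂ) * Complex.I)‖ = I := by
    rw [hId, hg]
  rw [hIg]
  -- the bound on the disc
  have hdisc : ∀ s : ℂ, ‖s - (1 / 2 + t * Complex.I)‖ ≤ ε → ‖L s‖ * ∏ i, min 1 ‖s - z i‖ ≤
      cl⁻¹ * CA * ((N : ℝ) / δ) ^ ((m + 3) * ε) * ((CZ + 16 * CU) * (1 + I)) := by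
    intro s hs
    obtain ⟨hlo, hup⟩ := hzz s (hs.trans hε1)
    have hre : |s.re - 1 / 2| ≤ ε := by
      have h1 := (Complex.abs_re_le_norm (s - (1 / 2 + t * Complex.I))).trans hs
      have h2 : (s - (1 / 2 + t * Complex.I)).re = s.re - 1 / 2 := by simp
      rwa [h2] at h1
    have him : |s.im - t| ≤ ε := by
      have h1 := (Complex.abs_im_le_norm (s - (1 / 2 + t * Complex.I))).trans hs
      have h2 : (s - (1 / 2 + t * Complex.I)).im = s.im - t := by simp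
      rwa [h2] at h1
    have hseq : (((1 / 2 + (s.re - 1 / 2) : ℝ) : ℂ) + s.im * Complex.I) = s := by
      rw [show (1 / 2 + (s.re - 1 / 2) : ℝ) = s.re by ring]
      exact Complex.re_add_im s
    obtain ⟨Q, hQ⟩ : ∃ Q : ℝ, Q = ∏ i, max 1 ‖s - z i‖ := ⟨_, rfl⟩
    have hQ1 : 1 ≤ Q := by
      rw [hQ]
      calc (1 : ℝ) = ∏ _i : Fin n, (1 : ℝ) := Finset.prod_const_one.symm
        _ ≤ _ := Finset.prod_le_prod (fun _ _ => zero_le_one) fun i _ => le_max_left _ _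
    rw [← hQ] at hlo hup
    have hM1 : ∀ u : ℝ, ‖MelA m (uu Φ (c1 D F)) (1 / 2 + u * Complex.I)‖ ≤
        (CU * δ ^ n * Q) * (1 + |u - s.im|) ^ n0 := by
      intro u
      rw [hMel]
      refine (hup u).trans (mul_le_mul_of_nonneg_left ?_ (by positivity))
      exact pow_le_pow_right₀ (by linarith [abs_nonneg (u - s.im)]) hn0
    have hM2 : ∀ u : ℝ, ‖MelA m (uu (Pool.Agent.H34.GA.cf Φ) (c2 D H xv F))
        (1 / 2 + u * Complex.I)‖ ≤ (CU * δ ^ n * Q) * (1 + |u - s.im|) ^ n0 := by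
      intro u
      rw [hZPE m N B r0 lam (uu Φ (c1 D F)) (uu (Pool.Agent.H34.GA.cf Φ) (c2 D H xv F)) L hm hN1
        hr0 hcψ hcψ' hZ4 hZK hlam hFE hLL hLW hne u]
      exact hM1 u
    have hfin := hA N δ CZ (CU * δ ^ n * Q) lam (uu Φ (c1 D F))
      (uu (Pool.Agent.H34.GA.cf Φ) (c2 D H xv F)) hN1 hδ0 hδ2 hCZ0.le (by positivity) hcψ hcψ' hZ4
      hZ2.1 hlam hFE s.im (s.re - 1 / 2) hre hM1 hM2 X hX'
    rw [hseq, hLW, hMel, norm_mul] at hfin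
    have hker : ∫ τ : ℝ, ((1 + |τ|) ^ 4)⁻¹ *
        ‖SX lam X (1 / 2 + ((s.im + τ : ℝ) : ℂ) * Complex.I)‖ ≤ 16 * I := by
      have h1 := ker_shift g hgc hg0 Bg hBg t s.im (him.trans hε1)
      rw [← hId, hg] at h1
      exact h1
    exact hyz_fin (norm_nonneg _) hQ1 hρ0 hcl hCA (by positivity) hCZ0.le hCU.le hI0 hker hdN
      hlo hfin
  have hL1 := hI n L z (1 / 2 + t * Complex.I) _ hn0 hLL.1 hdisc
  refine hL1.trans ?_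
  have hE2 : ((N : ℝ) / δ) ^ (((m : ℝ) + 3) * ε) ≤ ((N : ℝ) / δ) ^ ε0 :=
    Real.rpow_le_rpow_of_exponent_le hNδ1 hεm
  have h9 : CI * (cl⁻¹ * CA * ((N : ℝ) / δ) ^ ((m + 3) * ε) * ((CZ + 16 * CU) * (1 + I))) ≤
      CI * (cl⁻¹ * CA * ((N : ℝ) / δ) ^ ε0 * ((CZ + 16 * CU) * (1 + I))) := by
    refine mul_le_mul_of_nonneg_left (mul_le_mul_of_nonneg_right
      (mul_le_mul_of_nonneg_left hE2 (by positivity)) (by positivity)) hCI.le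
  refine h9.trans ?_
  rw [hδd, hya_pow hN0 hP0 hc]
  have h10 : CI * (cl⁻¹ * CA * (c ^ (-ε0) * ((N : ℝ) * P) ^ ε0) * ((CZ + 16 * CU) * (1 + I))) =
      C2 * ((N : ℝ) * P) ^ ε0 * (1 + I) := by
    rw [hC2]
    ring
  rw [h10]
  refine mul_le_mul_of_nonneg_right (mul_le_mul_of_nonneg_right ?_ ?_) ?_
  · linarith
  · positivity
  · linarith

end Pool.Agent.H88.GZZ
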