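import Pool.Agent.H34.GZZ.Targets

/-!
# MP_52e316_nt, row MED of gzz_modules: Mellin transforms of continuous functions with compact
support are entire
-/

set_option autoImplicit false

open MeasureTheory Filter Topology Pool.Agent.H34.GM Pool.Agent.H34.GZ Pool.Agent.H34.GU
  Pool.Agent.H34.GA Pool.Agent.H23.GB Pool.Agent.H34.GHY Pool.Agent.H34.GZZ

namespace Pool.Agent.H88.GZZ

theorem pf_MED : T_MED := by
  intro m r0 ψ _ hr0 hc hs
  have hr0' : 0 < r0 := by linarith
  have h1 : Differentiable ℂ (mellin ψ) := by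
    intro s
    refine mellin_differentiableAt_of_isBigO_rpow (a := s.re + 1) (b := s.re - 1)
      (hc.locallyIntegrableOn measurableSet_Ioi) ?_ (by linarith) ?_ (by linarith)
    · refine (Asymptotics.isBigO_zero _ _).congr' ?_ (EventuallyEq.refl _ _)
      filter_upwards [eventually_gt_atTop r0] with r hr
      by_contra h
      exact absurd (hs r (hr0'.trans hr) (Ne.symm h)).2 (not_le.2 hr)
    · refine (Asymptotics.isBigO_zero _ _).congr' ?_ (EventuallyEq.refl _ _)
      have h2 : Set.Ioo (0 : ℝ) r0⁻¹ ∈ 𝓝[>] (0 : ℝ) := Ioo_mem_nhdsGT (inv_pos.2 hr0')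
      filter_upwards [h2] with r hr
      by_contra h
      exact absurd (hs r hr.1 (Ne.symm h)).1 (not_le.2 hr.2)
  have h2 : MelA m ψ = fun s => mellin ψ (-((m : ℂ) * (s + ((m : ℂ) - 1) / 2))) := by
    funext s
    unfold MelA mellin
    refine setIntegral_congr_fun measurableSet_Ioi fun r _ => ?_
    show _ = _ • _
    rw [smul_eq_mul, mul_comm]
  rw [h2]
  exact h1.comp (by fun_prop)

end Pool.Agent.H88.GZZ
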